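import Mathlib

/-!
# A transitive shift space with one periodic point and no mixing suspension flow
-/

namespace Pool.Agent.Results.MP_49f1ce_an.NonMixingSuspension

open Topology Set Filter

section Defs

variable {A : Type}

/-- The left shift. -/
def shift (x : ℤ → A) : ℤ → A := fun i => x (i + 1)

/-- Shift spaces. -/
def IsShiftSpace [TopologicalSpace A] (X : Set (ℤ → A)) : Prop :=
  X.Nonempty ∧ IsClosed X ∧ shift '' X = X

/-- Topological transitivity: for nonempty open `U, V ⊆ X` there is `n ≥ 1` with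
`σ^n U ∩ V ≠ ∅`. -/
def Transitive [TopologicalSpace A] (X : Set (ℤ → A)) : Prop :=
  ∀ U V : Set X, IsOpen U → IsOpen V → U.Nonempty → V.Nonempty →
    ∃ n : ℕ, 1 ≤ n ∧ ∃ x ∈ U, ∃ y ∈ V, (y : ℤ → A) = shift^[n] x

/-- Periodic points. -/
def IsPeriodic (x : ℤ → A) : Prop := ∃ n : ℕ, 1 ≤ n ∧ shift^[n] x = x

/-- The identification `(x, s) ∼ (σx, s - r(x))` on `X × ℝ`. -/
def Rel {X : Set (ℤ → A)} (r : X → ℝ) (p q : X × ℝ) : Prop :=
  (q.1 : ℤ → A) = shift p.1 ∧ q.2 = p.2 - r p.1

/-- The suspension space `X_r`, presented as the quotient of `X × ℝ` by the equivalence relation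
generated by `(x, s) ∼ (σx, s - r(x))`; every class has a representative with `0 ≤ s ≤ r(x)`, and
`(x, r(x)) ∼ (σx, 0)`. It carries the quotient topology. -/
abbrev Susp {X : Set (ℤ → A)} (r : X → ℝ) : Type := Quot (Rel r)

/-- The suspension flow `φ_t[x, s] = [x, s + t]`. -/
def flow {X : Set (ℤ → A)} (r : X → ℝ) (t : ℝ) : Susp r → Susp r :=
  Quot.map (fun p => (p.1, p.2 + t)) fun p q h => ⟨h.1, by
    show q.2 + t = p.2 + t - r p.1
    rw [h.2]; ring⟩

/-- Topological mixing of the suspension flow. -/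
def FlowMixing [TopologicalSpace A] {X : Set (ℤ → A)} (r : X → ℝ) : Prop :=
  ∀ U V : Set (Susp r), IsOpen U → IsOpen V → U.Nonempty → V.Nonempty →
    ∃ T : ℝ, ∀ t ≥ T, (flow r t '' U ∩ V).Nonempty

/-- `f` and `g` are cohomologous: `f - g = h ∘ σ - h` with `h` continuous on `X`. -/
def Cohomologous [TopologicalSpace A] {X : Set (ℤ → A)} (f g : X → ℝ) : Prop :=
  ∃ h : X → ℝ, Continuous h ∧ ∀ x x' : X, (x' : ℤ → A) = shift x → f x - g x = h x' - h x

/-- `g x` depends only on `x_{-N}, …, x_N`. -/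
def IsLocConst {X : Set (ℤ → A)} (g : X → ℝ) : Prop :=
  ∃ N : ℕ, ∀ x y : X, (∀ i : ℤ, |i| ≤ N → x.1 i = y.1 i) → g x = g y

end Defs

/-! ### The spacing shift -/

/-- `q_k = (k+1)!`. -/
def q (k : ℕ) : ℤ := ((k + 1).factorial : ℤ)

/-- The set `D` of the allowed distances. -/
def D : Set ℤ := {d | ∃ k : ℕ, |d - q k| ≤ k}

/-- The spacing shift: the distances between two occurrences of `1` are in `D`. -/
def X : Set (ℤ → Bool) := {x | ∀ i j, i < j → x i = true → x j = true → j - i ∈ D}

lemma le_q (k : ℕ) : (k : ℤ) + 1 ≤ q k := by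
  unfold q
  exact_mod_cast Nat.self_le_factorial (k + 1)

lemma q_succ (k : ℕ) : q (k + 1) = (k + 2) * q k := by
  unfold q
  rw [Nat.factorial_succ (k + 1)]
  push_cast
  ring

lemma q_lo (k : ℕ) : (k + 1 : ℤ) * q k ≤ q (k + 1) - (k + 1) := by
  rw [q_succ]
  have := le_q k
  linarith

lemma hi_mono : Monotone fun k : ℕ => q k + k := monotone_nat_of_le_succ fun k => by
  have h1 := q_lo k
  have h2 := le_q k
  push_cast
  nlinarith

lemma lo_mono : Monotone fun k : ℕ => q k - k := monotone_nat_of_le_succ fun k => by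
  have h1 := q_lo k
  have h2 := le_q k
  push_cast
  nlinarith

/-- The gaps of `D`. -/
lemma gap {k : ℕ} {d : ℤ} (hd : d ∈ D) (h : q k + k < d) : q (k + 1) - (k + 1) ≤ d := by
  obtain ⟨j, hj⟩ := hd
  rw [abs_le] at hj
  have h1 : k + 1 ≤ j := by
    by_contra hcon
    push Not at hcon
    have := hi_mono (show j ≤ k by omega)
    simp only at this
    omega
  have := lo_mono h1
  simp only at this
  push_cast at this
  omega

lemma iterate_shift {A : Type} (x : ℤ → A) (n : ℕ) (i : ℤ) : shift^[n] x i = x (i + n) := by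
  induction n generalizing x with
  | zero => simp
  | succ n ih =>
    rw [Function.iterate_succ_apply, ih]
    show x (i + n + 1) = _
    congr 1
    push_cast
    ring

/-- Translation. -/
def tr (n : ℤ) (x : ℤ → Bool) : ℤ → Bool := fun i => x (i + n)

lemma tr_mem {x : ℤ → Bool} (hx : x ∈ X) (n : ℤ) : tr n x ∈ X := by
  intro i j hij hi hj
  have := hx (i + n) (j + n) (by omega) hi hj
  rwa [show j + n - (i + n) = j - i by ring] at this

/-- Translation on `X`. -/
def trX (n : ℤ) (x : X) : X := ⟨tr n x.1, tr_mem x.2 n⟩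

lemma zero_mem : (fun _ => false : ℤ → Bool) ∈ X := by
  intro i j _ hi
  exact absurd hi Bool.false_ne_true

lemma isShiftSpace_X : IsShiftSpace X := by
  refine ⟨⟨_, zero_mem⟩, ?_, ?_⟩
  · have : X = ⋂ (i : ℤ) (j : ℤ), {x : ℤ → Bool | i < j → x i = true → x j = true → j - i ∈ D} := by
      ext x
      simp only [mem_iInter]
      rfl
    rw [this]
    refine isClosed_iInter fun i => isClosed_iInter fun j => ?_
    have h2 : Continuous fun x : ℤ → Bool => (x i, x j) :=
      (continuous_apply i).prodMk (continuous_apply j)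
    have h3 := (isClosed_discrete {p : Bool × Bool | i < j → p.1 = true → p.2 = true →
      j - i ∈ D}).preimage h2
    exact h3
  · ext x
    constructor
    · rintro ⟨y, hy, rfl⟩
      exact tr_mem hy 1
    · intro hx
      refine ⟨tr (-1) x, tr_mem hx _, ?_⟩
      funext i
      show x (i + 1 + -1) = x i
      congr 1
      ring

/-- Basic neighbourhoods. -/
lemma exists_window {U : Set X} (hU : IsOpen U) {x : X} (hx : x ∈ U) :
    ∃ R : ℕ, ∀ y : X, (∀ i : ℤ, |i| ≤ R → y.1 i = x.1 i) → y ∈ U := by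
  obtain ⟨V, hV, rfl⟩ := isOpen_induced_iff.1 hU
  obtain ⟨I, u, hu, hIu⟩ := isOpen_pi_iff.1 hV x.1 hx
  refine ⟨I.sup Int.natAbs, fun y hy => hIu fun i hi => ?_⟩
  have h1 : |i| ≤ ((I.sup Int.natAbs : ℕ) : ℤ) := by
    rw [Int.abs_eq_natAbs]
    exact_mod_cast Finset.le_sup (f := Int.natAbs) hi
  rw [hy i h1]
  exact (hu i hi).2

lemma transitive_X : Transitive X := by
  rintro U V hU hV ⟨x, hx⟩ ⟨y, hy⟩
  obtain ⟨R₁, hR₁⟩ := exists_window hU hx
  obtain ⟨R₂, hR₂⟩ := exists_window hV hy
  set R := max R₁ R₂ with hR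
  have hR1 : R₁ ≤ R := le_max_left _ _
  have hR2 : R₂ ≤ R := le_max_right _ _
  set n := (2 * R + 1).factorial with hn
  have hq : q (2 * R) = n := rfl
  have hle := le_q (2 * R)
  rw [hq] at hle
  push_cast at hle
  let z : ℤ → Bool := fun i => (decide (|i| ≤ R) && x.1 i) || (decide (|i - n| ≤ R) && y.1 (i - n))
  have hz : ∀ i, z i = true ↔ (|i| ≤ R ∧ x.1 i = true) ∨ (|i - n| ≤ R ∧ y.1 (i - n) = true) := by
    intro i
    simp only [z, Bool.or_eq_true, Bool.and_eq_true, decide_eq_true_eq]
  have hzX : z ∈ X := by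
    intro i j hij hi hj
    rw [hz] at hi hj
    rcases hi with ⟨hi, hi'⟩ | ⟨hi, hi'⟩ <;> rcases hj with ⟨hj, hj'⟩ | ⟨hj, hj'⟩
    · exact x.2 i j hij hi' hj'
    · refine ⟨2 * R, ?_⟩
      rw [hq]
      rw [abs_le] at hi hj ⊢
      push_cast
      constructor <;> omega
    · rw [abs_le] at hi hj
      omega
    · have := y.2 (i - n) (j - n) (by omega) hi' hj'
      rwa [show j - n - (i - n) = j - i by ring] at this
  refine ⟨n, Nat.factorial_pos _, ⟨z, hzX⟩, hR₁ _ fun i hi => ?_, trX n ⟨z, hzX⟩,
    hR₂ _ fun i hi => ?_, ?_⟩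
  · have h1 : |i| ≤ R := hi.trans (by exact_mod_cast hR1)
    have h2 : ¬ |i - n| ≤ R := by
      rw [abs_le] at h1 ⊢
      omega
    show z i = x.1 i
    simp only [z, decide_eq_true h1, decide_eq_false h2, Bool.true_and, Bool.false_and,
      Bool.or_false]
  · have h1 : |i| ≤ R := hi.trans (by exact_mod_cast hR2)
    have h2 : ¬ |i + n| ≤ R := by
      rw [abs_le] at h1 ⊢
      omega
    show z (i + n) = y.1 i
    simp only [z, add_sub_cancel_right, decide_eq_true h1, decide_eq_false h2, Bool.true_and,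
      Bool.false_and, Bool.false_or]
  · funext i
    rw [iterate_shift]
    rfl

lemma periodic_X {x : ℤ → Bool} (hx : x ∈ X) (hp : IsPeriodic x) : x = fun _ => false := by
  obtain ⟨n, hn, h⟩ := hp
  by_contra hne
  obtain ⟨i, hi⟩ := Function.ne_iff.1 hne
  have hi' : x i = true := by simpa using hi
  have hper : ∀ m : ℕ, x (i + m * n) = true := by
    intro m
    induction m with
    | zero => simpa using hi'
    | succ m ih =>
      rw [← ih]
      have h1 := congrFun h (i + m * n)
      rw [iterate_shift] at h1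
      rw [← h1]
      congr 1
      push_cast
      ring
  -- choose a gap longer than `n`
  have hn0 : (0 : ℤ) < n := by exact_mod_cast hn
  have h1 := le_q (n + 1)
  have h2 := q_lo (n + 1)
  set c : ℤ := q (n + 1) + ((n + 1 : ℕ) : ℤ) with hc
  have hc0 : 0 ≤ c := by omega
  set m : ℕ := (c / n + 1).toNat with hm
  have hm' : (m : ℤ) = c / n + 1 := by
    rw [hm]
    exact Int.toNat_of_nonneg (by positivity)
  have h3 : c < m * n := by
    rw [hm']
    have := Int.lt_ediv_add_one_mul_self c hn0
    exact this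
  have h4 : (m : ℤ) * n ≤ c + n := by
    rw [hm']
    have := Int.ediv_mul_le c hn0.ne'
    linarith
  have h5 : (m : ℤ) * n ∈ D := by
    have := hx i (i + m * n) (by omega) hi' (hper m)
    rwa [add_sub_cancel_left] at this
  have h6 := gap h5 h3
  push_cast at h1 h2 h6 hc
  nlinarith

/-! ### The suspension flows are not mixing -/

/-- The generator of the identification, as a homeomorphism of `X × ℝ`. -/
noncomputable def G (r : X → ℝ) (hr : Continuous r) : X × ℝ ≃ₜ X × ℝ where
  toFun p := (trX 1 p.1, p.2 - r p.1)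
  invFun p := (trX (-1) p.1, p.2 + r (trX (-1) p.1))
  left_inv p := by
    have h : trX (-1) (trX 1 p.1) = p.1 := by
      apply Subtype.ext
      funext i
      show p.1.1 (i + -1 + 1) = p.1.1 i
      ring_nf
    simp only
    rw [h, sub_add_cancel]
  right_inv p := by
    have h : trX 1 (trX (-1) p.1) = p.1 := by
      apply Subtype.ext
      funext i
      show p.1.1 (i + 1 + -1) = p.1.1 i
      ring_nf
    simp only
    rw [h, add_sub_cancel_right]
  continuous_toFun := by
    have h : Continuous (trX 1) := by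
      refine Continuous.subtype_mk (continuous_pi fun i => ?_) _
      exact (continuous_apply (i + 1)).comp continuous_subtype_val
    exact (h.comp continuous_fst).prodMk (continuous_snd.sub (hr.comp continuous_fst))
  continuous_invFun := by
    have h : Continuous (trX (-1)) := by
      refine Continuous.subtype_mk (continuous_pi fun i => ?_) _
      exact (continuous_apply (i + -1)).comp continuous_subtype_val
    exact (h.comp continuous_fst).prodMk
      (continuous_snd.add (hr.comp (h.comp continuous_fst)))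

lemma rel_iff (r : X → ℝ) (hr : Continuous r) (p p' : X × ℝ) : Rel r p p' ↔ p' = G r hr p := by
  constructor
  · rintro ⟨h1, h2⟩
    exact Prod.ext (Subtype.ext h1) h2
  · rintro rfl
    exact ⟨rfl, rfl⟩

lemma mk_eq_iff (r : X → ℝ) (hr : Continuous r) (p p' : X × ℝ) :
    (Quot.mk (Rel r) p = Quot.mk (Rel r) p') ↔
      ∃ n : ℕ, p' = (G r hr)^[n] p ∨ p = (G r hr)^[n] p' := by
  rw [Quot.eq]
  constructor
  · intro h
    induction h with
    | rel p p' h => exact ⟨1, Or.inl ((rel_iff r hr _ _).1 h)⟩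
    | refl p => exact ⟨0, Or.inl rfl⟩
    | symm p p' _ ih =>
      obtain ⟨n, h | h⟩ := ih
      · exact ⟨n, Or.inr h⟩
      · exact ⟨n, Or.inl h⟩
    | trans a b c _ _ ih1 ih2 =>
      have hinj := fun n => (G r hr).injective.iterate n
      obtain ⟨n, h | h⟩ := ih1 <;> obtain ⟨m, h' | h'⟩ := ih2
      · exact ⟨m + n, Or.inl (by rw [h', h, Function.iterate_add_apply])⟩
      · -- b = G^n a = G^m c
        rcases le_total n m with hnm | hnm
        · refine ⟨m - n, Or.inr ?_⟩
          apply hinj n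
          rw [← Function.iterate_add_apply, Nat.add_sub_cancel' hnm, ← h, ← h']
        · refine ⟨n - m, Or.inl ?_⟩
          apply hinj m
          rw [← Function.iterate_add_apply, Nat.add_sub_cancel' hnm, ← h, ← h']
      · -- a = G^n b, c = G^m b
        rcases le_total n m with hnm | hnm
        · refine ⟨m - n, Or.inl ?_⟩
          rw [h', h, ← Function.iterate_add_apply, Nat.sub_add_cancel hnm]
        · refine ⟨n - m, Or.inr ?_⟩
          rw [h', h, ← Function.iterate_add_apply, Nat.sub_add_cancel hnm]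
      · exact ⟨n + m, Or.inr (by rw [h, h', Function.iterate_add_apply])⟩
  · have hfwd : ∀ (n : ℕ) (a : X × ℝ), Relation.EqvGen (Rel r) a ((G r hr)^[n] a) := by
      intro n
      induction n with
      | zero => exact fun a => Relation.EqvGen.refl a
      | succ n ih =>
        intro a
        rw [Function.iterate_succ_apply]
        exact Relation.EqvGen.trans _ _ _
          (Relation.EqvGen.rel _ _ ((rel_iff r hr _ _).2 rfl)) (ih _)
    rintro ⟨n, rfl | rfl⟩
    · exact hfwd n p
    · exact Relation.EqvGen.symm _ _ (hfwd n p')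

lemma isOpenMap_mk (r : X → ℝ) (hr : Continuous r) :
    IsOpenMap (Quot.mk (Rel r) : X × ℝ → Susp r) := by
  intro W hW
  rw [isOpen_coinduced]
  have : Quot.mk (Rel r) ⁻¹' (Quot.mk (Rel r) '' W) =
      ⋃ n : ℕ, ((G r hr)^[n] ⁻¹' W ∪ (G r hr)^[n] '' W) := by
    ext p
    simp only [mem_preimage, mem_iUnion, mem_union, mem_image]
    constructor
    · rintro ⟨w, hw, h⟩
      obtain ⟨n, h | h⟩ := (mk_eq_iff r hr _ _).1 h
      · exact ⟨n, Or.inr ⟨w, hw, h.symm⟩⟩
      · exact ⟨n, Or.inl (h ▸ hw)⟩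
    · rintro ⟨n, h | ⟨w, hw, rfl⟩⟩
      · exact ⟨_, h, (mk_eq_iff r hr _ _).2 ⟨n, Or.inr rfl⟩⟩
      · exact ⟨w, hw, (mk_eq_iff r hr _ _).2 ⟨n, Or.inl rfl⟩⟩
  rw [this]
  refine isOpen_iUnion fun n => IsOpen.union ?_ ?_
  · exact hW.preimage ((G r hr).continuous.iterate n)
  · have hit : IsOpenMap ((G r hr)^[n]) := by
      induction n with
      | zero => exact IsOpenMap.id
      | succ n ih =>
        rw [Function.iterate_succ]
        exact ih.comp (G r hr).isOpenMap
    exact hit W hW

lemma iterate_G (r : X → ℝ) (hr : Continuous r) {m M : ℝ} (hm : ∀ x, m ≤ r x) (hM : ∀ x, r x ≤ M)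
    (p : X × ℝ) : ∀ n : ℕ, (∀ i, ((G r hr)^[n] p).1.1 i = p.1.1 (i + n)) ∧
      p.2 - n * M ≤ ((G r hr)^[n] p).2 ∧ ((G r hr)^[n] p).2 ≤ p.2 - n * m
  | 0 => by simp
  | n + 1 => by
    obtain ⟨h1, h2, h3⟩ := iterate_G r hr hm hM p n
    rw [Function.iterate_succ_apply']
    set w := (G r hr)^[n] p with hw
    have h4 : (G r hr w).2 = w.2 - r w.1 := rfl
    have h5 := hm w.1
    have h6 := hM w.1
    refine ⟨fun i => ?_, ?_, ?_⟩
    · show w.1.1 (i + 1) = _
      have e : i + 1 + (n : ℤ) = i + ((n + 1 : ℕ) : ℤ) := by push_cast; ring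
      rw [h1, e]
    · rw [h4]
      push_cast
      linarith
    · rw [h4]
      push_cast
      linarith

/-- The point with a single `1`. -/
def y1 : X := ⟨fun i => decide (i = 0), by
  intro i j hij hi hj
  simp only [decide_eq_true_eq] at hi hj
  omega⟩

instance : CompactSpace X := isCompact_iff_compactSpace.1 isShiftSpace_X.2.1.isCompact

theorem not_mixing (r : X → ℝ) (hr : Continuous r) (hpos : ∀ x, 0 < r x) : ¬ FlowMixing r := by
  intro hmix
  have hne : Nonempty X := ⟨y1⟩
  obtain ⟨xm, -, hxm⟩ := isCompact_univ.exists_isMinOn univ_nonempty hr.continuousOn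
  obtain ⟨xM, -, hxM⟩ := isCompact_univ.exists_isMaxOn univ_nonempty hr.continuousOn
  set m := r xm with hmdef
  set M := r xM with hMdef
  have hm : ∀ x, m ≤ r x := fun x => hxm (mem_univ x)
  have hM : ∀ x, r x ≤ M := fun x => hxM (mem_univ x)
  have hm0 : 0 < m := hpos _
  have hM0 : 0 < M := hpos _
  let W : Set (X × ℝ) := {p | p.1.1 0 = true ∧ |p.2| < 1}
  have hWo : IsOpen W := by
    apply IsOpen.inter
    · have h1 : Continuous fun p : X × ℝ => p.1.1 0 :=
        (continuous_apply 0).comp (continuous_subtype_val.comp continuous_fst)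
      exact (isOpen_discrete {true}).preimage h1
    · exact isOpen_lt (continuous_abs.comp continuous_snd) continuous_const
  have hWn : W.Nonempty := ⟨(y1, 0), rfl, by simp⟩
  obtain ⟨T, hT⟩ := hmix _ _ (isOpenMap_mk r hr W hWo) (isOpenMap_mk r hr W hWo)
    (hWn.image _) (hWn.image _)
  obtain ⟨k, hk⟩ := exists_nat_gt ((2 * M + |T| + 5) / m)
  rw [div_lt_iff₀ hm0] at hk
  have hq1 : ((k : ℝ) + 1) ≤ q k := by exact_mod_cast le_q k
  have hq2 : ((k : ℝ) + 1) * q k ≤ q (k + 1) - (k + 1) := by exact_mod_cast q_lo k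
  have hk0 : (0 : ℝ) ≤ k := Nat.cast_nonneg k
  have hT0 := abs_nonneg T
  have hTle := le_abs_self T
  set t : ℝ := M * (q k + k) + |T| + 5 / 2 with ht
  have ht0 : 0 ≤ M * ((q k : ℝ) + k) := mul_nonneg hM0.le (by linarith)
  have hkey : t + 2 < m * (q (k + 1) - (k + 1)) := by
    have h1 : m * ((k + 1) * q k) ≤ m * (q (k + 1) - (k + 1)) :=
      mul_le_mul_of_nonneg_left hq2 hm0.le
    have h2 : (2 * M + |T| + 5) * q k ≤ (k * m) * q k :=
      mul_le_mul_of_nonneg_right hk.le (by linarith)
    have h3 : (|T| + 5) * 1 ≤ (|T| + 5) * q k :=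
      mul_le_mul_of_nonneg_left (by linarith) (by linarith)
    have h4 : M * (k : ℝ) ≤ M * q k := mul_le_mul_of_nonneg_left (by linarith) hM0.le
    have h5 : 0 ≤ m * q k := by
      apply mul_nonneg hm0.le
      linarith
    have h6 : m * ((k + 1) * q k) = (k * m) * q k + m * q k := by ring
    have h7 : (2 * M + |T| + 5) * (q k : ℝ) = 2 * (M * q k) + (|T| + 5) * q k := by ring
    rw [ht, mul_add]
    linarith
  obtain ⟨_, ⟨_, ⟨w, hw, rfl⟩, rfl⟩, ⟨w', hw', hww⟩⟩ := hT t (by linarith)
  have hww' : Quot.mk (Rel r) (w.1, w.2 + t) = Quot.mk (Rel r) w' := hww.symm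
  have hw2 := abs_lt.1 hw.2
  have hw2' := abs_lt.1 hw'.2
  obtain ⟨n, h | h⟩ := (mk_eq_iff r hr _ _).1 hww'
  · obtain ⟨h1, h2, h3⟩ := iterate_G r hr hm hM (w.1, w.2 + t) n
    rw [← h] at h1 h2 h3
    simp only at h1 h2 h3
    have h4 : 0 < n := by
      rcases Nat.eq_zero_or_pos n with rfl | hn
      · exfalso
        simp only [Nat.cast_zero, zero_mul, sub_zero] at h2
        linarith
      · exact hn
    have h5 : (n : ℤ) ∈ D := by
      have h6 := h1 0
      rw [hw'.1] at h6
      have := w.1.2 0 n (by exact_mod_cast h4) hw.1 (by rw [h6, zero_add])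
      rwa [sub_zero] at this
    rcases le_or_gt (n : ℤ) (q k + k) with h6 | h6
    · have h7 : (n : ℝ) ≤ q k + k := by exact_mod_cast h6
      have h8 : (n : ℝ) * M ≤ (q k + k) * M := mul_le_mul_of_nonneg_right h7 hM0.le
      linarith
    · have h7 := gap h5 h6
      have h8 : (q (k + 1) : ℝ) - (k + 1) ≤ n := by exact_mod_cast h7
      have h9 : ((q (k + 1) : ℝ) - (k + 1)) * m ≤ n * m := mul_le_mul_of_nonneg_right h8 hm0.le
      linarith
  · obtain ⟨-, -, h3⟩ := iterate_G r hr hm hM w' n
    rw [← h] at h3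
    simp only at h3
    have h4 : (0 : ℝ) ≤ n * m := by positivity
    linarith

/-! ### A roof function which is not cohomologous to a locally constant function -/

/-- The roof function `r(x) = 1 + [x_0 = 1] ∑_{d ≥ 1} 2^{-d} [x_d = 1]`. -/
noncomputable def r0 (x : X) : ℝ :=
  1 + if x.1 0 = true then ∑' d : ℕ, (if x.1 (d + 1) = true then (1 / 2 : ℝ) ^ (d + 1) else 0) else 0

lemma summable_half : Summable fun d : ℕ => (1 / 2 : ℝ) ^ (d + 1) :=
  (summable_nat_add_iff 1).2 (summable_geometric_of_lt_one (by norm_num) (by norm_num))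

lemma continuous_r0 : Continuous r0 := by
  have h1 : Continuous fun x : X =>
      ∑' d : ℕ, (if x.1 (d + 1) = true then (1 / 2 : ℝ) ^ (d + 1) else 0) := by
    apply continuous_tsum (u := fun d : ℕ => (1 / 2 : ℝ) ^ (d + 1)) _ summable_half
    · intro d x
      split_ifs
      · rw [Real.norm_of_nonneg (by positivity)]
      · rw [norm_zero]; positivity
    · intro d
      have h2 : Continuous fun b : Bool => if b = true then (1 / 2 : ℝ) ^ (d + 1) else 0 :=
        continuous_of_discreteTopology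
      exact h2.comp ((continuous_apply _).comp continuous_subtype_val)
  have h3 : Continuous fun x : X => if x.1 0 = true then (1 : ℝ) else 0 := by
    have h2 : Continuous fun b : Bool => if b = true then (1 : ℝ) else 0 :=
      continuous_of_discreteTopology
    exact h2.comp ((continuous_apply _).comp continuous_subtype_val)
  have h4 : r0 = fun x => 1 + (if x.1 0 = true then (1 : ℝ) else 0) *
      ∑' d : ℕ, (if x.1 (d + 1) = true then (1 / 2 : ℝ) ^ (d + 1) else 0) := by
    funext x
    unfold r0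
    split_ifs <;> simp
  rw [h4]
  exact continuous_const.add (h3.mul h1)

lemma r0_pos (x : X) : 0 < r0 x := by
  unfold r0
  split_ifs
  · have : 0 ≤ ∑' d : ℕ, (if x.1 (d + 1) = true then (1 / 2 : ℝ) ^ (d + 1) else 0) :=
      tsum_nonneg fun d => by split_ifs <;> positivity
    linarith
  · norm_num

/-- The point `0^∞`. -/
def z0 : X := ⟨fun _ => false, zero_mem⟩

lemma tendsto_tr {y : X} {B : ℕ} (hB : ∀ i : ℤ, (B : ℤ) < |i| → y.1 i = false) {a : ℕ → ℤ}
    (ha : Tendsto (fun n => |a n|) atTop atTop) :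
    Tendsto (fun n => trX (a n) y) atTop (𝓝 z0) := by
  rw [tendsto_subtype_rng, tendsto_pi_nhds]
  intro i
  apply tendsto_const_nhds.congr'
  filter_upwards [ha.eventually_gt_atTop ((B : ℤ) + |i|)] with n hn
  symm
  show y.1 (i + a n) = false
  apply hB
  have := abs_sub_abs_le_abs_add (a n) i
  rw [add_comm (a n) i] at this
  omega

theorem not_cohomologous (g : X → ℝ) (hg : IsLocConst g) : ¬ Cohomologous r0 g := by
  rintro ⟨h, hh, hc⟩
  obtain ⟨N, hN⟩ := hg
  -- the second homoclinic point, with two `1`s at distance `e + 1`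
  set e : ℕ := (2 * N + 1).factorial - 1 with he
  have hef : (e : ℤ) + 1 = q (2 * N) := by
    have := Nat.factorial_pos (2 * N + 1)
    unfold q
    omega
  have heN := le_q (2 * N)
  rw [← hef] at heN
  push_cast at heN
  have hDe : (e : ℤ) + 1 ∈ D := ⟨2 * N, by rw [hef, sub_self, abs_zero]; positivity⟩
  let y2 : X := ⟨fun i => decide (i = 0) || decide (i = e + 1), by
    intro i j hij hi hj
    simp only [Bool.or_eq_true, decide_eq_true_eq] at hi hj
    have : i = 0 ∧ j = e + 1 := by omega
    rw [this.1, this.2, sub_zero]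
    exact hDe⟩
  have hy1 : ∀ i : ℤ, y1.1 i = decide (i = 0) := fun _ => rfl
  have hy2 : ∀ i : ℤ, y2.1 i = (decide (i = 0) || decide (i = (e : ℤ) + 1)) := fun _ => rfl
  have hz0 : ∀ i : ℤ, z0.1 i = false := fun _ => rfl
  have htr : ∀ (n : ℤ) (y : X) (i : ℤ), (trX n y).1 i = y.1 (i + n) := fun _ _ _ => rfl
  -- the roof function on the orbits
  have hr1 : ∀ n : ℤ, r0 (trX n y1) = 1 := by
    intro n
    unfold r0
    by_cases hn : n = 0
    · rw [if_pos (by rw [htr, hy1, hn]; rfl)]
      have : ∀ d : ℕ, (if (trX n y1).1 (d + 1) = true then (1 / 2 : ℝ) ^ (d + 1) else 0) = 0 := by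
        intro d
        rw [if_neg]
        rw [htr, hy1, decide_eq_true_eq]
        omega
      simp only [this, tsum_zero, add_zero]
    · rw [if_neg, add_zero]
      rw [htr, hy1, decide_eq_true_eq]
      omega
  have hr2 : ∀ n : ℤ, r0 (trX n y2) = 1 + if n = 0 then (1 / 2 : ℝ) ^ (e + 1) else 0 := by
    intro n
    unfold r0
    congr 1
    by_cases hn : n = 0
    · rw [if_pos (by rw [htr, hy2, hn]; rfl), if_pos hn, tsum_eq_single e]
      · rw [if_pos]
        rw [htr, hy2, hn]
        simp
      · intro d hd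
        rw [if_neg]
        rw [htr, hy2, Bool.or_eq_true, decide_eq_true_eq, decide_eq_true_eq]
        omega
    · rw [if_neg hn]
      by_cases hn' : n = e + 1
      · rw [if_pos (by rw [htr, hy2, hn']; simp)]
        have : ∀ d : ℕ, (if (trX n y2).1 (d + 1) = true then (1 / 2 : ℝ) ^ (d + 1) else 0) = 0 := by
          intro d
          rw [if_neg]
          rw [htr, hy2, Bool.or_eq_true, decide_eq_true_eq, decide_eq_true_eq]
          omega
        simp only [this, tsum_zero]
      · rw [if_neg]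
        rw [htr, hy2, Bool.or_eq_true, decide_eq_true_eq, decide_eq_true_eq]
        omega
  -- the value at the fixed point
  have hrz : r0 z0 = 1 := by
    unfold r0
    rw [if_neg (by rw [hz0]; decide), add_zero]
  have hgz : g z0 = 1 := by
    have := hc z0 z0 rfl
    rw [hrz, sub_self] at this
    linarith
  -- additivity of `g`
  have hgadd : ∀ n : ℤ, g (trX n y2) + 1 = g (trX n y1) + g (trX (n - (e + 1)) y1) := by
    intro n
    by_cases hn : |n| ≤ N
    · rw [abs_le] at hn
      have h1 : g (trX n y2) = g (trX n y1) := by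
        apply hN
        intro i hi
        rw [abs_le] at hi
        rw [htr, htr, hy2, hy1, decide_eq_false (show ¬ i + n = e + 1 by omega), Bool.or_false]
      have h2 : g (trX (n - (e + 1)) y1) = 1 := by
        rw [← hgz]
        apply hN
        intro i hi
        rw [abs_le] at hi
        rw [htr, hy1, hz0, decide_eq_false (by omega)]
      rw [h1, h2]
    · have h1 : g (trX n y1) = 1 := by
        rw [← hgz]
        apply hN
        intro i hi
        rw [htr, hy1, hz0, decide_eq_false]
        intro hin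
        apply hn
        have : n = -i := by omega
        rw [this, abs_neg]
        exact hi
      have h2 : g (trX n y2) = g (trX (n - (e + 1)) y1) := by
        apply hN
        intro i hi
        have h3 : ¬ i + n = 0 := by
          intro hin
          apply hn
          have : n = -i := by omega
          rw [this, abs_neg]
          exact hi
        rw [htr, htr, hy2, hy1, decide_eq_false h3, Bool.false_or]
        congr 1
        rw [eq_iff_iff]
        omega
      rw [h1, h2, add_comm]
  -- telescoping sums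
  have htel : ∀ (y : X) (c : ℤ) (M : ℕ), ∑ i ∈ Finset.range (2 * M),
      (r0 (trX ((i : ℤ) - M - c) y) - g (trX ((i : ℤ) - M - c) y)) =
      h (trX ((M : ℤ) - c) y) - h (trX (-(M : ℤ) - c) y) := by
    intro y c M
    have h1 : ∀ i : ℕ, r0 (trX ((i : ℤ) - M - c) y) - g (trX ((i : ℤ) - M - c) y) =
        h (trX (((i + 1 : ℕ) : ℤ) - M - c) y) - h (trX ((i : ℤ) - M - c) y) := by
      intro i
      apply hc
      funext j
      show y.1 (j + (((i + 1 : ℕ) : ℤ) - M - c)) = y.1 (j + 1 + ((i : ℤ) - M - c))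
      have e' : j + (((i + 1 : ℕ) : ℤ) - M - c) = j + 1 + ((i : ℤ) - M - c) := by
        push_cast; ring
      rw [e']
    simp only [h1]
    rw [Finset.sum_range_sub (fun i : ℕ => h (trX ((i : ℤ) - M - c) y))]
    congr 3
    · push_cast; ring
    · push_cast; ring
  have hmain : ∀ M : ℕ, 1 ≤ M →
      h (trX ((M : ℤ) - 0) y2) - h (trX (-(M : ℤ) - 0) y2) =
      (h (trX ((M : ℤ) - 0) y1) - h (trX (-(M : ℤ) - 0) y1)) +
      (h (trX ((M : ℤ) - (e + 1)) y1) - h (trX (-(M : ℤ) - (e + 1)) y1)) +
      (1 / 2 : ℝ) ^ (e + 1) := by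
    intro M hM
    rw [← htel, ← htel, ← htel, ← Finset.sum_add_distrib]
    have h2 : ∑ i ∈ Finset.range (2 * M), (if (i : ℤ) - M - 0 = 0 then (1 / 2 : ℝ) ^ (e + 1) else 0)
        = (1 / 2 : ℝ) ^ (e + 1) := by
      rw [Finset.sum_eq_single M]
      · rw [if_pos (by ring)]
      · intro b _ hb
        rw [if_neg (by omega)]
      · intro hb
        exact absurd (Finset.mem_range.2 (by omega)) hb
    rw [← h2, ← Finset.sum_add_distrib]
    apply Finset.sum_congr rfl
    intro i _
    have h3 := hgadd ((i : ℤ) - M - 0)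
    rw [hr2, hr1, hr1]
    have h4 : (i : ℤ) - M - 0 - (e + 1) = (i : ℤ) - M - (e + 1) := by ring
    rw [h4] at h3
    linarith
  -- limits
  have hB1 : ∀ i : ℤ, ((0 : ℕ) : ℤ) < |i| → y1.1 i = false := by
    intro i hi
    rw [hy1, decide_eq_false]
    rintro rfl
    simp at hi
  have hB2 : ∀ i : ℤ, ((e + 1 : ℕ) : ℤ) < |i| → y2.1 i = false := by
    intro i hi
    push_cast at hi
    rw [hy2, decide_eq_false, decide_eq_false]
    · rfl
    · rintro rfl
      rw [abs_of_nonneg (by positivity)] at hi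
      omega
    · rintro rfl
      rw [abs_zero] at hi
      omega
  have hc1 : ∀ c : ℤ, Tendsto (fun M : ℕ => |(M : ℤ) - c|) atTop atTop := by
    intro c
    apply tendsto_abs_atTop_atTop.comp
    exact tendsto_atTop_add_const_right _ _ tendsto_natCast_atTop_atTop
  have hc2 : ∀ c : ℤ, Tendsto (fun M : ℕ => |-(M : ℤ) - c|) atTop atTop := by
    intro c
    have : (fun M : ℕ => |-(M : ℤ) - c|) = fun M : ℕ => |(M : ℤ) - (-c)| := by
      funext M
      rw [← abs_neg]
      congr 1
      ring
    rw [this]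
    exact hc1 (-c)
  have L : ∀ (y : X) (B : ℕ), (∀ i : ℤ, (B : ℤ) < |i| → y.1 i = false) → ∀ c : ℤ,
      Tendsto (fun M : ℕ => h (trX ((M : ℤ) - c) y) - h (trX (-(M : ℤ) - c) y)) atTop
        (𝓝 (h z0 - h z0)) := by
    intro y B hB c
    exact ((hh.tendsto z0).comp (tendsto_tr hB (hc1 c))).sub
      ((hh.tendsto z0).comp (tendsto_tr hB (hc2 c)))
  have L2 := L y2 _ hB2 0
  have L1 := ((L y1 _ hB1 0).add (L y1 _ hB1 (e + 1))).add_const ((1 / 2 : ℝ) ^ (e + 1))
  have L3 := L1.congr' (f₂ := fun M : ℕ => h (trX ((M : ℤ) - 0) y2) - h (trX (-(M : ℤ) - 0) y2)) (by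
    filter_upwards [eventually_ge_atTop 1] with M hM
    rw [hmain M hM])
  have h5 := tendsto_nhds_unique L2 L3
  have h6 : (0 : ℝ) < (1 / 2) ^ (e + 1) := by positivity
  linarith

/-- There is a transitive shift space `X` with only finitely many periodic points such that no
suspension flow over `X` is topologically mixing, and a roof function on `X` which is
cohomologous neither to a constant nor to a locally constant function. -/
theorem result : ∃ X : Set (ℤ → Bool), IsShiftSpace X ∧ Transitive X ∧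
    {x ∈ X | IsPeriodic x}.Finite ∧
    (∀ r : X → ℝ, Continuous r → (∀ x, 0 < r x) → ¬ FlowMixing r) ∧
    ∃ r : X → ℝ, Continuous r ∧ (∀ x, 0 < r x) ∧ (∀ c : ℝ, ¬ Cohomologous r fun _ => c) ∧
      ∀ g : X → ℝ, IsLocConst g → ¬ Cohomologous r g := by
  refine ⟨X, isShiftSpace_X, transitive_X, ?_, not_mixing, r0, continuous_r0, r0_pos,
    fun c => not_cohomologous _ ⟨0, fun _ _ _ => rfl⟩, not_cohomologous⟩
  refine (Set.finite_singleton (fun _ => false : ℤ → Bool)).subset ?_
  rintro x ⟨hx, hp⟩
  exact periodic_X hx hp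

end Pool.Agent.Results.MP_49f1ce_an.NonMixingSuspension
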